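import Pool.Agent.W2helper90.RT.Stm

/-!
# Project RT, piece POT: assembly of the inequality for functions on `ℝ^k × ℝ^m`
-/

set_option autoImplicit false

open MeasureTheory Set Filter Topology
open LTd (pd)

namespace Pool.Agent.W2helper90.RT

theorem t_POT (h1 : S_CORE) (h2 : S_HARM) (h3 : S_PH) (h4 : S_BES) (h5 : S_PAR) : S_POT := by
  intro k m hk N u hu hsub V hV hV0 hVb
  obtain ⟨g, e, hg, hO, hT⟩ := h2 k (by omega)
  obtain ⟨C, hC⟩ := hVb
  obtain ⟨p1, p2⟩ := h5 k m (by omega) g e hO hT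
  have hVb' : ∃ C : ℝ, ∀ x, |V x| ≤ C := ⟨C, fun x => by rw [abs_of_nonneg (hV0 x)]; exact hC x⟩
  obtain ⟨B, hB⟩ : ∃ B, B = ENNReal.ofReal
      (2 / ((k - 1).factorial : ℝ) * Lc k m * (2 / ((k : ℝ) + m + 2))) *
      ∫⁻ x : X m, ENNReal.ofReal (Real.exp (k * x 0) * V x ^ (1 + ((k : ℝ) + m) / 2)) := ⟨_, rfl⟩
  rw [← hB]
  -- the limit
  have hlim : Tendsto (fun L => ENNReal.ofReal (∑ a, ((∑ l ∈ Finset.range L, ∑ j,
      ∫ x : X m, Real.exp (2 * x 0) * V x * ph (e l j) (u a) x ^ 2) - ∫ z, gr2 (u a) z)))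
      atTop (𝓝 (ENNReal.ofReal (∑ a, ((∫ z : Z k m,
        V (Fin.cons (Real.log ‖z.1‖) z.2 : X m) * u a z ^ 2) - ∫ z, gr2 (u a) z)))) := by
    refine (ENNReal.continuous_ofReal.tendsto _).comp ?_
    refine tendsto_finsetSum _ fun a _ => ?_
    exact (p1 (u a) (hu a) V hV hVb').sub tendsto_const_nhds
  refine le_of_tendsto' hlim fun L => ?_
  have hcore := h1 k m hk L g (fun l _ => hg l) N (fun l j a => ph (e l j) (u a))
    (fun l j a => (h3 k m (by omega) (e l j) (u a) (hu a)).1)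
    (fun l j a => (h3 k m (by omega) (e l j) (u a) (hu a)).2.1)
    (fun l _ j c => p2 N u hu hsub l j c) V hV hV0 ⟨C, hC⟩
  rw [← hB] at hcore
  refine le_trans (ENNReal.ofReal_le_ofReal ?_) hcore
  have hrw : ∑ l ∈ Finset.range L, ∑ j, ∑ a,
      ((∫ x : X m, Real.exp (2 * x 0) * V x * ph (e l j) (u a) x ^ 2) -
        kin (ph (e l j) (u a)) (ph (e l j) (u a)) -
        ((l : ℝ) + ((k : ℝ) - 2) / 2) ^ 2 * ∫ x, ph (e l j) (u a) x ^ 2) =
      ∑ a, ((∑ l ∈ Finset.range L, ∑ j,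
        ∫ x : X m, Real.exp (2 * x 0) * V x * ph (e l j) (u a) x ^ 2) -
        ∑ l ∈ Finset.range L, ∑ j, (kin (ph (e l j) (u a)) (ph (e l j) (u a)) +
          ((l : ℝ) + ((k : ℝ) - 2) / 2) ^ 2 * ∫ x, ph (e l j) (u a) x ^ 2)) := by
    have : ∀ a, ((∑ l ∈ Finset.range L, ∑ j,
        ∫ x : X m, Real.exp (2 * x 0) * V x * ph (e l j) (u a) x ^ 2) -
        ∑ l ∈ Finset.range L, ∑ j, (kin (ph (e l j) (u a)) (ph (e l j) (u a)) +
          ((l : ℝ) + ((k : ℝ) - 2) / 2) ^ 2 * ∫ x, ph (e l j) (u a) x ^ 2)) =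
        ∑ l ∈ Finset.range L, ∑ j,
        ((∫ x : X m, Real.exp (2 * x 0) * V x * ph (e l j) (u a) x ^ 2) -
        kin (ph (e l j) (u a)) (ph (e l j) (u a)) -
        ((l : ℝ) + ((k : ℝ) - 2) / 2) ^ 2 * ∫ x, ph (e l j) (u a) x ^ 2) := by
      intro a
      rw [← Finset.sum_sub_distrib]
      refine Finset.sum_congr rfl fun l _ => ?_
      rw [← Finset.sum_sub_distrib]
      refine Finset.sum_congr rfl fun j _ => ?_
      ring
    rw [Finset.sum_congr rfl fun a _ => this a, Finset.sum_comm]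
    refine Finset.sum_congr rfl fun l _ => ?_
    rw [Finset.sum_comm]
  rw [hrw]
  refine Finset.sum_le_sum fun a _ => ?_
  exact sub_le_sub_left (h4 k m (by omega) g e hO (u a) (hu a) L) _

end Pool.Agent.W2helper90.RT
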